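import Pool.Agent.V1146.NH.Len

/-!
The ring `R` has dimension two and its completion is reduced.
-/

open PowerSeries

namespace Pool.Agent.V1146.NH

universe u

variable (k : Type u) [Field k]

lemma max_le_span : IsLocalRing.maximalIdeal (RR k) ≤ Ideal.span {Ye k, Ze k, We k} := by
  rw [← F_one]
  rintro ⟨⟨f, g⟩, hfg⟩ ⟨hf, hg⟩
  change f ∈ J2 k 1 at hf
  change g ∈ J1 k 1 at hg
  have hcf : cc k f = 0 := (mem_J2_one k).mp hf
  rw [mem_J1, pow_one] at hg
  obtain ⟨G, rfl⟩ := hg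
  have h0 := hf 0
  rw [Nat.sub_zero, pow_one] at h0
  obtain ⟨q, hq⟩ := h0
  have h4 : (X : k⟦X⟧⟦X⟧) ∣ f - C (coeff 0 f) := by
    rw [X_dvd_iff, map_sub, constantCoeff_C, coeff_zero_eq_constantCoeff_apply, sub_self]
  obtain ⟨H, hH⟩ := h4
  have hmemG : (C (C (constantCoeff G)), G) ∈ RR k := by rw [mem_RR]; simp [cc]
  have hmemH : (H, C (cc k H)) ∈ RR k := by rw [mem_RR]; simp
  have hmemq : (C q, C (constantCoeff q)) ∈ RR k := by rw [mem_RR]; simp [cc]
  have h5 : (⟨(f, X * G), hfg⟩ : RR k) = (⟨_, hmemH⟩ : RR k) * Ye k + (⟨_, hmemq⟩ : RR k) * Ze k +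
      (⟨_, hmemG⟩ : RR k) * We k := by
    apply Subtype.ext
    refine Prod.ext ?_ ?_
    · change f = H * X + C q * C X + C (C (constantCoeff G)) * 0
      rw [mul_zero, add_zero, sub_eq_iff_eq_add'.mp hH, hq, map_mul]
      ring
    · change X * G = C (cc k H) * 0 + C (constantCoeff q) * 0 + G * X
      ring
  rw [h5]
  refine add_mem (add_mem ?_ ?_) ?_
  · exact Ideal.mul_mem_left _ _ (Ideal.subset_span (by simp))
  · exact Ideal.mul_mem_left _ _ (Ideal.subset_span (by simp))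
  · exact Ideal.mul_mem_left _ _ (Ideal.subset_span (by simp))

lemma max_minimal : IsLocalRing.maximalIdeal (RR k) ∈
    (Ideal.span {Ye k, Ze k + We k}).minimalPrimes := by
  refine ⟨⟨inferInstance, ?_⟩, ?_⟩
  · apply Ideal.span_le.mpr
    rintro x (rfl | rfl)
    · exact Ye_mem k
    · exact add_mem (Ze_mem k) (We_mem k)
  · rintro P ⟨hP, hP2⟩ _
    have hY : Ye k ∈ P := hP2 (Ideal.subset_span (by simp))
    have hZW : Ze k + We k ∈ P := hP2 (Ideal.subset_span (by simp))
    have h0 : Ze k * We k = 0 := by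
      apply Subtype.ext
      refine Prod.ext ?_ ?_
      · change (C X : k⟦X⟧⟦X⟧) * 0 = 0
        rw [mul_zero]
      · change (0 : k⟦X⟧) * X = 0
        rw [zero_mul]
    have hZ : Ze k ∈ P := by
      have h1 := Ideal.mul_mem_left P (Ze k) hZW
      rw [mul_add, h0, add_zero, ← pow_two] at h1
      exact hP.mem_of_pow_mem _ h1
    have hW : We k ∈ P := by
      have h1 := Ideal.mul_mem_right (We k) P hZW
      rw [add_mul, h0, zero_add, ← pow_two] at h1
      exact hP.mem_of_pow_mem _ h1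
    refine (max_le_span k).trans (Ideal.span_le.mpr ?_)
    rintro x (rfl | rfl | rfl)
    · exact hY
    · exact hZ
    · exact hW

lemma dim_le : ringKrullDim (RR k) ≤ 2 := by
  classical
  rw [← IsLocalRing.maximalIdeal_height_eq_ringKrullDim]
  have h1 : (IsLocalRing.maximalIdeal (RR k)).height ≤
      (({Ye k, Ze k + We k} : Finset (RR k)).card : ℕ∞) := by
    apply Ideal.height_le_card_of_mem_minimalPrimes_span_finset
    have := max_minimal k
    rwa [Finset.coe_insert, Finset.coe_singleton]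
  have h2 : (({Ye k, Ze k + We k} : Finset (RR k)).card : ℕ∞) ≤ 2 := by
    exact_mod_cast Finset.card_le_two
  have h3 : ((IsLocalRing.maximalIdeal (RR k)).height : WithBot ℕ∞) ≤
      ((2 : ℕ∞) : WithBot ℕ∞) := WithBot.coe_le_coe.mpr (h1.trans h2)
  exact h3

/-- the first projection -/
noncomputable def pr1 : RR k →+* k⟦X⟧⟦X⟧ := (RingHom.fst _ _).comp (RR k).subtype

/-- the projection to `k⟦z⟧` -/
noncomputable def pr2 : RR k →+* k⟦X⟧ := (constantCoeff (R := k⟦X⟧)).comp (pr1 k)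

lemma le_dim : 2 ≤ ringKrullDim (RR k) := by
  rw [← IsLocalRing.maximalIdeal_height_eq_ringKrullDim]
  have p1 : (RingHom.ker (pr1 k)).IsPrime := RingHom.ker_isPrime _
  have p2 : (RingHom.ker (pr2 k)).IsPrime := RingHom.ker_isPrime _
  have h1 : RingHom.ker (pr1 k) < RingHom.ker (pr2 k) := by
    refine lt_of_le_of_ne ?_ ?_
    · intro r hr
      rw [RingHom.mem_ker] at hr ⊢
      rw [pr2, RingHom.comp_apply, hr, map_zero]
    · intro h
      have h2 : Ye k ∈ RingHom.ker (pr2 k) := by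
        rw [RingHom.mem_ker]
        change constantCoeff (X : k⟦X⟧⟦X⟧) = 0
        rw [constantCoeff_X]
      rw [← h, RingHom.mem_ker] at h2
      exact X_ne_zero h2
  have h2 : RingHom.ker (pr2 k) < IsLocalRing.maximalIdeal (RR k) := by
    refine lt_of_le_of_ne (IsLocalRing.le_maximalIdeal p2.ne_top) ?_
    intro h
    have h3 := Ze_mem k
    rw [← h, RingHom.mem_ker] at h3
    change constantCoeff (C X : k⟦X⟧⟦X⟧) = 0 at h3
    rw [constantCoeff_C] at h3
    exact X_ne_zero h3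
  have h3 := Ideal.height_add_one_le_of_lt_of_isPrime h1
  have h4 := Ideal.height_add_one_le_of_lt_of_isPrime h2
  have h5 : (2 : ℕ∞) ≤ (IsLocalRing.maximalIdeal (RR k)).height := by
    calc (2 : ℕ∞) = 0 + 1 + 1 := by norm_num
      _ ≤ (RingHom.ker (pr1 k)).height + 1 + 1 := by gcongr; exact zero_le
      _ ≤ (RingHom.ker (pr2 k)).height + 1 := by gcongr
      _ ≤ _ := h4
  exact WithBot.coe_le_coe.mpr h5

lemma dim_eq : ringKrullDim (RR k) = ((2 : ℕ) : WithBot ℕ∞) :=
  le_antisymm (dim_le k) (le_dim k)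

lemma F_sq {n : ℕ} {r : RR k} (h : r ^ 2 ∈ F k (2 * n)) : r ∈ F k n :=
  ⟨(VF_J2 k).sq_mem h.1, (VF_J1 k).sq_mem h.2⟩

lemma reduced_completion :
    IsReduced (AdicCompletion (IsLocalRing.maximalIdeal (RR k)) (RR k)) := by
  rw [isReduced_iff_pow_one_lt 2 one_lt_two]
  intro x hx
  apply AdicCompletion.ext_evalₐ
  intro n
  rw [map_zero]
  obtain ⟨r, hr⟩ := Ideal.Quotient.mk_surjective (AdicCompletion.evalₐ _ (2 * n) x)
  have h1 : r ^ 2 ∈ IsLocalRing.maximalIdeal (RR k) ^ (2 * n) := by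
    rw [← Ideal.Quotient.eq_zero_iff_mem, map_pow, hr, ← map_pow, hx, map_zero]
  rw [pow_eq_F] at h1
  have h2 := F_sq k h1
  rw [← pow_eq_F] at h2
  have h3 : AdicCompletion.evalₐ (IsLocalRing.maximalIdeal (RR k)) n x =
      Ideal.Quotient.factor (Ideal.pow_le_pow_right (show n ≤ 2 * n by omega))
        (AdicCompletion.evalₐ (IsLocalRing.maximalIdeal (RR k)) (2 * n) x) := by
    obtain ⟨y, rfl⟩ := AdicCompletion.mk_surjective _ _ x
    rw [AdicCompletion.evalₐ_mk, AdicCompletion.evalₐ_mk, Ideal.Quotient.factor_mk,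
      Ideal.Quotient.eq]
    have := y.2 (show n ≤ 2 * n by omega)
    rw [SModEq.sub_mem] at this
    simpa using this
  rw [h3, ← hr, Ideal.Quotient.factor_mk, Ideal.Quotient.eq_zero_iff_mem]
  exact h2

end Pool.Agent.V1146.NH
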