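import Mathlib

/-!
Filtrations with a valuation property, and the two power series filtrations.
-/

open PowerSeries

namespace Pool.Agent.V1146.NH

universe u

/-- a decreasing multiplicative filtration whose associated graded ring is a domain -/
structure VF {T : Type u} [CommRing T] (J : ℕ → Ideal T) : Prop where
  zero : J 0 = ⊤
  anti : ∀ n, J (n + 1) ≤ J n
  mul : ∀ a b f g, f ∈ J a → g ∈ J b → f * g ∈ J (a + b)
  val : ∀ a b f g, f ∈ J a → f ∉ J (a + 1) → g ∈ J b → g ∉ J (b + 1) → f * g ∉ J (a + b + 1)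

section VF

variable {T : Type u} [CommRing T] {J : ℕ → Ideal T} (h : VF J)

include h

lemma VF.mono {m n : ℕ} (hmn : m ≤ n) : J n ≤ J m := by
  induction n with
  | zero =>
    have : m = 0 := by omega
    rw [this]
  | succ n ih =>
    rcases Nat.lt_or_ge m (n + 1) with h1 | h1
    · exact (h.anti n).trans (ih (by omega))
    · have : m = n + 1 := by omega
      rw [this]

lemma VF.pow_mem {a : ℕ} {f : T} (hf : f ∈ J a) (k : ℕ) : f ^ k ∈ J (k * a) := by
  induction k with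
  | zero => rw [Nat.zero_mul, h.zero]; trivial
  | succ k ih =>
    rw [pow_succ, Nat.succ_mul]
    exact h.mul _ _ _ _ ih hf

lemma VF.pow_not_mem {a : ℕ} {f : T} (hf : f ∈ J a) (hf' : f ∉ J (a + 1)) (k : ℕ) :
    f ^ (k + 1) ∉ J ((k + 1) * a + 1) := by
  induction k with
  | zero => simpa using hf'
  | succ k ih =>
    rw [pow_succ, Nat.succ_mul]
    exact h.val _ _ _ _ (h.pow_mem hf _) ih hf hf'

lemma VF.exists_of_not_mem {n : ℕ} {f : T} (hf : f ∉ J n) :
    ∃ a < n, f ∈ J a ∧ f ∉ J (a + 1) := by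
  classical
  have hex : ∃ m, f ∉ J m := ⟨n, hf⟩
  obtain ⟨m, hm⟩ : ∃ m, m = Nat.find hex := ⟨_, rfl⟩
  have h1 : f ∉ J m := by rw [hm]; exact Nat.find_spec hex
  have h2 : m ≤ n := by rw [hm]; exact Nat.find_min' hex hf
  have h3 : m ≠ 0 := by
    intro h0
    rw [h0, h.zero] at h1
    exact h1 trivial
  obtain ⟨a, rfl⟩ := Nat.exists_eq_succ_of_ne_zero h3
  refine ⟨a, by omega, ?_, h1⟩
  by_contra h4
  have := Nat.find_min' hex h4
  omega

lemma VF.sq_mem {n : ℕ} {f : T} (hf : f ^ 2 ∈ J (2 * n)) : f ∈ J n := by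
  by_contra hcon
  obtain ⟨a, ha, h1, h2⟩ := h.exists_of_not_mem hcon
  exact h.pow_not_mem h1 h2 1 (h.mono (by omega) hf)

/-- the ideals of the filtration are integrally closed -/
lemma VF.integral {n : ℕ} {x : T} {k : ℕ} (hk : 0 < k) (a : ℕ → T) (ha : ∀ j, a j ∈ J (n * j))
    (hx : x ^ k + ∑ j ∈ Finset.range k, a (k - j) * x ^ j = 0) : x ∈ J n := by
  by_contra hcon
  obtain ⟨m, hm, h1, h2⟩ := h.exists_of_not_mem hcon
  obtain ⟨l, rfl⟩ := Nat.exists_eq_succ_of_ne_zero hk.ne'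
  apply h.pow_not_mem h1 h2 l
  have h3 : x ^ (l + 1) = - ∑ j ∈ Finset.range (l + 1), a (l + 1 - j) * x ^ j :=
    eq_neg_of_add_eq_zero_left hx
  rw [h3]
  apply neg_mem
  apply sum_mem
  intro j hj
  rw [Finset.mem_range] at hj
  refine h.mono ?_ (h.mul _ _ _ _ (ha (l + 1 - j)) (h.pow_mem h1 j))
  have h4 : (m + 1) * (l + 1 - j) ≤ n * (l + 1 - j) := Nat.mul_le_mul_right _ hm
  have h5 : (m + 1) * (l + 1 - j) = m * (l + 1 - j) + (l + 1 - j) := by ring
  have h6 : m * (l + 1 - j) + j * m = (l + 1) * m := by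
    rw [mul_comm j m, ← Nat.mul_add, Nat.sub_add_cancel (by omega), mul_comm]
  omega

end VF

section One

variable (k : Type u) [Field k]

/-- the filtration of `k⟦x⟧` -/
noncomputable def J1 (n : ℕ) : Ideal k⟦X⟧ := Ideal.span {X ^ n}

lemma mem_J1 {n : ℕ} {f : k⟦X⟧} : f ∈ J1 k n ↔ (X : k⟦X⟧) ^ n ∣ f := Ideal.mem_span_singleton

lemma val_X {a b : ℕ} {f g : k⟦X⟧} (hf : (X : k⟦X⟧) ^ a ∣ f) (hf' : ¬ (X : k⟦X⟧) ^ (a + 1) ∣ f)
    (hg : (X : k⟦X⟧) ^ b ∣ g) (hg' : ¬ (X : k⟦X⟧) ^ (b + 1) ∣ g) :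
    ¬ (X : k⟦X⟧) ^ (a + b + 1) ∣ f * g := by
  obtain ⟨u, rfl⟩ := hf
  obtain ⟨v, rfl⟩ := hg
  intro hcon
  have hu : ¬ (X : k⟦X⟧) ∣ u := fun h => hf' (by rw [pow_succ]; exact mul_dvd_mul_left _ h)
  have hv : ¬ (X : k⟦X⟧) ∣ v := fun h => hg' (by rw [pow_succ]; exact mul_dvd_mul_left _ h)
  have h1 : (X : k⟦X⟧) ^ (a + b) * X ∣ X ^ (a + b) * (u * v) := by
    rw [← pow_succ]
    convert hcon using 1
    ring
  have h2 := (mul_dvd_mul_iff_left (pow_ne_zero _ X_ne_zero)).mp h1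
  rcases X_prime.dvd_or_dvd h2 with h | h
  · exact hu h
  · exact hv h

lemma VF_J1 : VF (J1 k) where
  zero := by rw [J1, pow_zero, Ideal.span_singleton_one]
  anti n := by
    intro f hf
    rw [mem_J1] at *
    exact (pow_dvd_pow _ (Nat.le_succ n)).trans hf
  mul a b f g hf hg := by
    rw [mem_J1] at *
    rw [pow_add]
    exact mul_dvd_mul hf hg
  val a b f g hf hf' hg hg' := by
    rw [mem_J1] at *
    exact val_X k hf hf' hg hg'

/-- the filtration of `k⟦z⟧⟦y⟧` -/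
noncomputable def J2 (n : ℕ) : Ideal k⟦X⟧⟦X⟧ where
  carrier := {f | ∀ j, (X : k⟦X⟧) ^ (n - j) ∣ coeff j f}
  zero_mem' := by intro j; rw [map_zero]; exact dvd_zero _
  add_mem' := by
    intro f g hf hg j
    rw [map_add]
    exact dvd_add (hf j) (hg j)
  smul_mem' := by
    intro c f hf j
    rw [smul_eq_mul, coeff_mul]
    apply Finset.dvd_sum
    rintro ⟨u, v⟩ huv
    have h1 : u + v = j := Finset.HasAntidiagonal.mem_antidiagonal.mp huv
    exact Dvd.dvd.mul_left ((pow_dvd_pow _ (by omega)).trans (hf v)) _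

lemma mem_J2 {n : ℕ} {f : k⟦X⟧⟦X⟧} : f ∈ J2 k n ↔ ∀ j, (X : k⟦X⟧) ^ (n - j) ∣ coeff j f := Iff.rfl

lemma VF_J2 : VF (J2 k) where
  zero := by
    rw [eq_top_iff]
    intro f _ j
    rw [Nat.zero_sub, pow_zero]
    exact one_dvd _
  anti n := by
    intro f hf j
    exact (pow_dvd_pow _ (by omega)).trans (hf j)
  mul a b f g hf hg := by
    intro j
    rw [coeff_mul]
    apply Finset.dvd_sum
    rintro ⟨u, v⟩ huv
    have h1 : u + v = j := Finset.HasAntidiagonal.mem_antidiagonal.mp huv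
    refine (pow_dvd_pow _ (show a + b - j ≤ (a - u) + (b - v) by omega)).trans ?_
    rw [pow_add]
    exact mul_dvd_mul (hf u) (hg v)
  val a b f g hf hf' hg hg' := by
    classical
    intro hcon
    rw [mem_J2] at hf' hg'
    push Not at hf' hg'
    obtain ⟨j0, hj0⟩ : ∃ j0, j0 = Nat.find hf' := ⟨_, rfl⟩
    obtain ⟨l0, hl0⟩ : ∃ l0, l0 = Nat.find hg' := ⟨_, rfl⟩
    have e1 : ¬ (X : k⟦X⟧) ^ (a + 1 - j0) ∣ coeff j0 f := by
      rw [hj0]; exact Nat.find_spec hf'
    have e2 : ¬ (X : k⟦X⟧) ^ (b + 1 - l0) ∣ coeff l0 g := by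
      rw [hl0]; exact Nat.find_spec hg'
    have e3 : ∀ j < j0, (X : k⟦X⟧) ^ (a + 1 - j) ∣ coeff j f := by
      intro j hj
      by_contra h
      have := Nat.find_min' hf' h
      omega
    have e4 : ∀ j < l0, (X : k⟦X⟧) ^ (b + 1 - j) ∣ coeff j g := by
      intro j hj
      by_contra h
      have := Nat.find_min' hg' h
      omega
    have hja : j0 ≤ a := by
      by_contra h
      apply e1
      rw [show a + 1 - j0 = 0 by omega, pow_zero]
      exact one_dvd _
    have hlb : l0 ≤ b := by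
      by_contra h
      apply e2
      rw [show b + 1 - l0 = 0 by omega, pow_zero]
      exact one_dvd _
    have h1 := hcon (j0 + l0)
    rw [coeff_mul] at h1
    rw [← Finset.add_sum_erase _ _ (a := (j0, l0))
      (Finset.HasAntidiagonal.mem_antidiagonal.mpr rfl)] at h1
    have h2 : (X : k⟦X⟧) ^ (a + b + 1 - (j0 + l0)) ∣
        ∑ x ∈ (Finset.HasAntidiagonal.antidiagonal (j0 + l0)).erase (j0, l0),
          coeff x.1 f * coeff x.2 g := by
      apply Finset.dvd_sum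
      rintro ⟨u, v⟩ huv
      rw [Finset.mem_erase] at huv
      have h3 : u + v = j0 + l0 := Finset.HasAntidiagonal.mem_antidiagonal.mp huv.2
      have h4 : ¬ (u = j0 ∧ v = l0) := by
        rintro ⟨rfl, rfl⟩
        exact huv.1 rfl
      rcases Nat.lt_or_ge u j0 with hu | hu
      · refine (pow_dvd_pow _ (show a + b + 1 - (j0 + l0) ≤ (a + 1 - u) + (b - v) by omega)).trans ?_
        rw [pow_add]
        exact mul_dvd_mul (e3 u hu) (hg v)
      · have hv : v < l0 := by omega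
        refine (pow_dvd_pow _ (show a + b + 1 - (j0 + l0) ≤ (a - u) + (b + 1 - v) by omega)).trans ?_
        rw [pow_add]
        exact mul_dvd_mul (hf u) (e4 v hv)
    have h3 := (dvd_add_left h2).mp h1
    refine val_X k (hf j0) ?_ (hg l0) ?_ ?_ (a := a - j0) (b := b - l0)
    · rwa [show a - j0 + 1 = a + 1 - j0 by omega]
    · rwa [show b - l0 + 1 = b + 1 - l0 by omega]
    · rwa [show a - j0 + (b - l0) + 1 = a + b + 1 - (j0 + l0) by omega]

end One

end Pool.Agent.V1146.NH
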