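import Pool.Agent.V1146.NH.Ring

/-!
Lengths of the quotients of `R` by the powers of the maximal ideal.
-/

open PowerSeries

namespace Pool.Agent.V1146.NH

universe u

variable (k : Type u) [Field k]

/-- `k` as an algebra over `R` -/
noncomputable instance algR : Algebra (RR k) k := (cR k).toAlgebra

lemma smul_k (r : RR k) (c : k) : r • c = cR k r * c := rfl

/-- the lift of a vector to `R`, first component -/
noncomputable def s1 (N : ℕ) (a : Fin (N + 1) → k) : k⟦X⟧⟦X⟧ :=
  ∑ j : Fin (N + 1), C (C (a j) * X ^ (N - (j : ℕ))) * X ^ (j : ℕ)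

lemma coeff_s1 (N : ℕ) (a : Fin (N + 1) → k) (i : Fin (N + 1)) :
    coeff (i : ℕ) (s1 k N a) = C (a i) * X ^ (N - (i : ℕ)) := by
  rw [s1, map_sum, Finset.sum_eq_single i]
  · rw [coeff_C_mul, coeff_X_pow_self, mul_one]
  · intro j _ hj
    rw [coeff_C_mul, coeff_X_pow, if_neg, mul_zero]
    intro h
    exact hj (Fin.ext h.symm)
  · intro h; exact absurd (Finset.mem_univ _) h

lemma coeff_s1' (N : ℕ) (a : Fin (N + 1) → k) (i : ℕ) (hi : N < i) :
    coeff i (s1 k N a) = 0 := by
  rw [s1, map_sum, Finset.sum_eq_zero]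
  intro j _
  rw [coeff_C_mul, coeff_X_pow, if_neg, mul_zero]
  intro h
  omega

lemma s1_mem (N : ℕ) (a : Fin (N + 1) → k) : s1 k N a ∈ J2 k N := by
  intro j
  by_cases hj : j < N + 1
  · have := coeff_s1 k N a ⟨j, hj⟩
    rw [this]
    exact Dvd.intro_left _ rfl
  · rw [coeff_s1' k N a j (by omega)]
    exact dvd_zero _

lemma s1_add (N : ℕ) (a b : Fin (N + 1) → k) : s1 k N (a + b) = s1 k N a + s1 k N b := by
  simp only [s1, Pi.add_apply, map_add, add_mul, Finset.sum_add_distrib]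

lemma s1_smul (N : ℕ) (c : k) (a : Fin (N + 1) → k) :
    s1 k N (c • a) = C (C c) * s1 k N a := by
  rw [s1, s1, Finset.mul_sum]
  apply Finset.sum_congr rfl
  intro j _
  simp only [Pi.smul_apply, smul_eq_mul, map_mul]
  ring

lemma X_dvd_C (n : ℕ) (c : k) (h : (X : k⟦X⟧) ^ (n + 1) ∣ C c * X ^ n) : c = 0 := by
  rw [X_pow_dvd_iff] at h
  have h1 := h n (Nat.lt_succ_self n)
  rwa [coeff_C_mul, coeff_X_pow_self, mul_one] at h1

lemma s1_injective (N : ℕ) (a : Fin (N + 1) → k) (h : s1 k N a ∈ J2 k (N + 1)) : a = 0 := by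
  funext i
  have h1 := h (i : ℕ)
  rw [coeff_s1, show N + 1 - (i : ℕ) = (N - (i : ℕ)) + 1 by omega] at h1
  exact X_dvd_C k _ _ h1

/-- the lift of a vector to `R` -/
noncomputable def sR (N : ℕ) (v : (Fin (N + 2) → k) × k) : RR k :=
  ⟨(s1 k (N + 1) v.1, C v.2 * X ^ (N + 1)), by
    rw [mem_RR, (mem_J2_one k).mp ((VF_J2 k).mono (by omega) (s1_mem k (N + 1) v.1))]
    simp⟩

lemma sR_mem (N : ℕ) (v : (Fin (N + 2) → k) × k) : sR k N v ∈ F k (N + 1) :=
  ⟨s1_mem k (N + 1) v.1, by rw [mem_J1]; exact Dvd.intro_left _ rfl⟩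

lemma sR_add (N : ℕ) (v w : (Fin (N + 2) → k) × k) : sR k N (v + w) = sR k N v + sR k N w := by
  apply Subtype.ext
  refine Prod.ext (s1_add k (N + 1) _ _) ?_
  change C (v.2 + w.2) * X ^ (N + 1) = C v.2 * X ^ (N + 1) + C w.2 * X ^ (N + 1)
  rw [map_add, add_mul]

/-- constants -/
noncomputable def iR (c : k) : RR k := ⟨(C (C c), C c), by rw [mem_RR]; simp [cc]⟩

lemma cR_iR (c : k) : cR k (iR k c) = c := by simp [cR_apply, iR, cc]

lemma sR_smul (N : ℕ) (c : k) (v : (Fin (N + 2) → k) × k) :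
    sR k N (c • v) = iR k c * sR k N v := by
  apply Subtype.ext
  refine Prod.ext (s1_smul k (N + 1) _ _) ?_
  change C (c * v.2) * X ^ (N + 1) = C c * (C v.2 * X ^ (N + 1))
  rw [map_mul, mul_assoc]

lemma smul_vec (N : ℕ) (r : RR k) (v : (Fin (N + 2) → k) × k) : r • v = cR k r • v := rfl

/-- the map from the vectors to the quotient -/
noncomputable def fR (N : ℕ) : ((Fin (N + 2) → k) × k) →ₗ[RR k] (RR k ⧸ F k (N + 2)) where
  toFun v := Ideal.Quotient.mk _ (sR k N v)
  map_add' v w := by rw [sR_add, map_add]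
  map_smul' r v := by
    rw [smul_vec, sR_smul, RingHom.id_apply]
    change _ = Ideal.Quotient.mk _ (r * sR k N v)
    rw [Ideal.Quotient.eq, ← sub_mul]
    have h1 : iR k (cR k r) - r ∈ F k 1 := by
      rw [mem_F_one, map_sub, cR_iR, sub_self]
    have := F_mul k h1 (sR_mem k N v)
    rwa [show 1 + (N + 1) = N + 2 by ring] at this

lemma fR_injective (N : ℕ) : Function.Injective (fR k N) := by
  rw [injective_iff_map_eq_zero]
  intro v hv
  change Ideal.Quotient.mk _ (sR k N v) = 0 at hv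
  rw [Ideal.Quotient.eq_zero_iff_mem] at hv
  obtain ⟨h1, h2⟩ := hv
  refine Prod.ext (s1_injective k (N + 1) v.1 h1) ?_
  change C v.2 * X ^ (N + 1) ∈ J1 k (N + 2) at h2
  rw [mem_J1] at h2
  exact X_dvd_C k _ _ h2

lemma F_anti (N : ℕ) : F k (N + 1) ≤ F k N := fun _ h => ⟨(VF_J2 k).anti _ h.1, (VF_J1 k).anti _ h.2⟩

/-- the projection -/
noncomputable def gR (N : ℕ) : (RR k ⧸ F k (N + 2)) →ₗ[RR k] (RR k ⧸ F k (N + 1)) :=
  Submodule.factor (F_anti k (N + 1))

lemma gR_surjective (N : ℕ) : Function.Surjective (gR k N) :=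
  Submodule.factor_surjective (F_anti k (N + 1))

lemma exact (N : ℕ) : Function.Exact (fR k N) (gR k N) := by
  intro y
  obtain ⟨r, rfl⟩ := Submodule.Quotient.mk_surjective _ y
  constructor
  · intro h
    have h1 : r ∈ F k (N + 1) := by
      have h2 : gR k N (Submodule.Quotient.mk r) = Submodule.Quotient.mk r := rfl
      rw [h2] at h
      exact (Submodule.Quotient.mk_eq_zero _).mp h
    obtain ⟨h2, h3⟩ := h1
    rw [mem_J1] at h3
    obtain ⟨G, hG⟩ := h3
    choose q hq using h2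
    refine ⟨(fun j => constantCoeff (q j), constantCoeff G), ?_⟩
    change (Submodule.Quotient.mk (sR k N _) : RR k ⧸ F k (N + 2)) = Submodule.Quotient.mk r
    rw [Submodule.Quotient.eq]
    constructor
    · change s1 k (N + 1) _ - (r : k⟦X⟧⟦X⟧ × k⟦X⟧).1 ∈ J2 k (N + 2)
      intro j
      rw [map_sub, hq j]
      by_cases hj : j < N + 2
      · have e1 := coeff_s1 k (N + 1) (fun j => constantCoeff (q j)) ⟨j, hj⟩
        simp only at e1
        rw [e1, show N + 2 - j = (N + 1 - j) + 1 by omega, pow_succ,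
          show C (constantCoeff (q j)) * X ^ (N + 1 - j) - X ^ (N + 1 - j) * q j =
            X ^ (N + 1 - j) * (C (constantCoeff (q j)) - q j) by ring]
        apply mul_dvd_mul_left
        rw [X_dvd_iff, map_sub, constantCoeff_C, sub_self]
      · rw [show N + 2 - j = 0 by omega, pow_zero]
        exact one_dvd _
    · change C (constantCoeff G) * X ^ (N + 1) - (r : k⟦X⟧⟦X⟧ × k⟦X⟧).2 ∈ J1 k (N + 2)
      rw [mem_J1, hG, show C (constantCoeff G) * X ^ (N + 1) - X ^ (N + 1) * G =
            X ^ (N + 1) * (C (constantCoeff G) - G) by ring, pow_succ]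
      apply mul_dvd_mul_left
      rw [X_dvd_iff, map_sub, constantCoeff_C, sub_self]
  · rintro ⟨v, hv⟩
    rw [← hv]
    change (Submodule.Quotient.mk (sR k N v) : RR k ⧸ F k (N + 1)) = 0
    rw [Submodule.Quotient.mk_eq_zero]
    exact sR_mem k N v

lemma length_vec (N : ℕ) : Module.length (RR k) ((Fin (N + 2) → k) × k) = (N + 3 : ℕ) := by
  have hs : Function.Surjective (algebraMap (RR k) k) := cR_surjective k
  rw [Module.length_eq_of_surjective (R := k) (S := RR k) hs, Module.length_eq_finrank]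
  simp
  norm_cast

lemma length_quot (N : ℕ) :
    Module.length (RR k) (RR k ⧸ F k (N + 1)) = ((N + 2).choose 2 + N : ℕ) := by
  induction N with
  | zero =>
    have h1 : (F k 1).IsMaximal := by rw [F_one]; infer_instance
    have h2 : IsSimpleModule (RR k) (RR k ⧸ F k 1) := by
      rw [isSimpleModule_iff_isCoatom]
      exact Ideal.isMaximal_def.mp h1
    rw [Module.length_eq_one]
    simp
  | succ N ih =>
    rw [Module.length_eq_add_of_exact (fR k N) (gR k N) (fR_injective k N) (gR_surjective k N)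
      (exact k N), ih, length_vec]
    have h1 : (N + 1 + 2).choose 2 = (N + 2) + (N + 2).choose 2 := by
      rw [show N + 1 + 2 = (N + 2) + 1 by ring, Nat.choose_succ_succ (N + 2) 1, Nat.choose_one_right]
    rw [h1]
    norm_cast
    ring

end Pool.Agent.V1146.NH
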