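import Pool.Agent.V1146.NH.Filt

/-!
The ring of the pairs `(f, g)` in `k⟦z⟧⟦y⟧ × k⟦x⟧` with the same constant term.
-/

open PowerSeries

namespace Pool.Agent.V1146.NH

universe u

variable (k : Type u) [Field k]

/-- the map from `k⟦z⟧⟦y⟧⟦x⟧` to the product -/
noncomputable def Phi : k⟦X⟧⟦X⟧⟦X⟧ →+* k⟦X⟧⟦X⟧ × k⟦X⟧ :=
  RingHom.prod (constantCoeff (R := k⟦X⟧⟦X⟧))
    (PowerSeries.map ((constantCoeff (R := k)).comp (constantCoeff (R := k⟦X⟧))))

/-- the ring `R` -/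
noncomputable def RR : Subring (k⟦X⟧⟦X⟧ × k⟦X⟧) := (Phi k).range

/-- the constant term of an element of `k⟦z⟧⟦y⟧` -/
noncomputable def cc : k⟦X⟧⟦X⟧ →+* k :=
  (constantCoeff (R := k)).comp (constantCoeff (R := k⟦X⟧))

lemma mem_RR {p : k⟦X⟧⟦X⟧ × k⟦X⟧} : p ∈ RR k ↔ cc k p.1 = constantCoeff p.2 := by
  constructor
  · rintro ⟨F, rfl⟩
    simp only [Phi, RingHom.prod_apply, cc]
    rw [← coeff_zero_eq_constantCoeff_apply (PowerSeries.map _ F), coeff_map,
      coeff_zero_eq_constantCoeff_apply]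
  · intro h
    refine ⟨C p.1 + X * (PowerSeries.mk fun n => C (C (coeff (n + 1) p.2))), ?_⟩
    simp only [Phi, RingHom.prod_apply]
    refine Prod.ext ?_ ?_
    · simp
    · ext n
      rw [coeff_map, map_add]
      rcases n with _ | n
      · rw [coeff_zero_X_mul, add_zero, coeff_zero_C, coeff_zero_eq_constantCoeff_apply, ← h]
        rfl
      · rw [coeff_succ_X_mul, coeff_mk, coeff_C, if_neg (Nat.succ_ne_zero n), zero_add]
        simp

instance : IsNoetherianRing (RR k) := by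
  unfold RR
  infer_instance

instance : IsLocalRing (RR k) := by
  unfold RR
  exact IsLocalRing.of_surjective' (Phi k).rangeRestrict (Phi k).rangeRestrict_surjective

/-- the constant term -/
noncomputable def cR : RR k →+* k := (cc k).comp ((RingHom.fst _ _).comp (RR k).subtype)

lemma cR_apply (r : RR k) : cR k r = cc k (r : k⟦X⟧⟦X⟧ × k⟦X⟧).1 := rfl

lemma cR_apply' (r : RR k) : cR k r = constantCoeff (r : k⟦X⟧⟦X⟧ × k⟦X⟧).2 := by
  rw [cR_apply]; exact (mem_RR k).mp r.2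

lemma cR_surjective : Function.Surjective (cR k) := by
  intro c
  refine ⟨⟨(C (C c), C c), ?_⟩, ?_⟩
  · rw [mem_RR]; simp [cc]
  · simp [cR_apply, cc]

/-- the filtration of `R` -/
noncomputable def F (n : ℕ) : Ideal (RR k) where
  carrier := {r | (r : k⟦X⟧⟦X⟧ × k⟦X⟧).1 ∈ J2 k n ∧ (r : k⟦X⟧⟦X⟧ × k⟦X⟧).2 ∈ J1 k n}
  zero_mem' := ⟨zero_mem _, zero_mem _⟩
  add_mem' := fun hf hg => ⟨add_mem hf.1 hg.1, add_mem hf.2 hg.2⟩
  smul_mem' := fun c _ hf => ⟨Ideal.mul_mem_left _ _ hf.1, Ideal.mul_mem_left _ _ hf.2⟩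

lemma mem_F {n : ℕ} {r : RR k} : r ∈ F k n ↔
    (r : k⟦X⟧⟦X⟧ × k⟦X⟧).1 ∈ J2 k n ∧ (r : k⟦X⟧⟦X⟧ × k⟦X⟧).2 ∈ J1 k n := Iff.rfl

lemma mem_J2_one {f : k⟦X⟧⟦X⟧} : f ∈ J2 k 1 ↔ cc k f = 0 := by
  rw [mem_J2]
  constructor
  · intro h
    have := h 0
    rw [Nat.sub_zero, pow_one, X_dvd_iff, coeff_zero_eq_constantCoeff_apply] at this
    exact this
  · intro h j
    rcases j with _ | j
    · rw [Nat.sub_zero, pow_one, X_dvd_iff, coeff_zero_eq_constantCoeff_apply]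
      exact h
    · rw [show 1 - (j + 1) = 0 by omega, pow_zero]
      exact one_dvd _

lemma mem_J1_one {f : k⟦X⟧} : f ∈ J1 k 1 ↔ constantCoeff f = 0 := by
  rw [mem_J1, pow_one, X_dvd_iff]

lemma mem_F_one {r : RR k} : r ∈ F k 1 ↔ cR k r = 0 := by
  rw [mem_F, mem_J2_one, mem_J1_one, ← cR_apply, ← cR_apply']
  exact and_self_iff

lemma F_one : F k 1 = IsLocalRing.maximalIdeal (RR k) := by
  have h1 : F k 1 = RingHom.ker (cR k) := by
    ext r
    rw [mem_F_one, RingHom.mem_ker]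
  have h2 : (F k 1).IsMaximal := by
    rw [h1]
    exact RingHom.ker_isMaximal_of_surjective _ (cR_surjective k)
  exact IsLocalRing.eq_maximalIdeal h2

lemma F_mul {a b : ℕ} {r s : RR k} (hr : r ∈ F k a) (hs : s ∈ F k b) : r * s ∈ F k (a + b) :=
  ⟨(VF_J2 k).mul _ _ _ _ hr.1 hs.1, (VF_J1 k).mul _ _ _ _ hr.2 hs.2⟩

lemma F_zero : F k 0 = ⊤ := by
  rw [eq_top_iff]
  intro r _
  exact ⟨by rw [(VF_J2 k).zero]; trivial, by rw [(VF_J1 k).zero]; trivial⟩

lemma pow_le_F (n : ℕ) : IsLocalRing.maximalIdeal (RR k) ^ n ≤ F k n := by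
  induction n with
  | zero => rw [F_zero]; exact le_top
  | succ n ih =>
    rw [pow_succ, Ideal.mul_le]
    intro r hr s hs
    rw [← F_one] at hs
    exact F_mul k (ih hr) hs

/-- the element `(y, 0)` -/
noncomputable def Ye : RR k := ⟨(X, 0), by rw [mem_RR]; simp [cc]⟩

/-- the element `(z, 0)` -/
noncomputable def Ze : RR k := ⟨(C X, 0), by rw [mem_RR]; simp [cc]⟩

/-- the element `(0, x)` -/
noncomputable def We : RR k := ⟨(0, X), by rw [mem_RR]; simp [cc]⟩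

lemma Ye_mem : Ye k ∈ IsLocalRing.maximalIdeal (RR k) := by
  rw [← F_one, mem_F_one, cR_apply']; simp [Ye]

lemma Ze_mem : Ze k ∈ IsLocalRing.maximalIdeal (RR k) := by
  rw [← F_one, mem_F_one, cR_apply']; simp [Ze]

lemma We_mem : We k ∈ IsLocalRing.maximalIdeal (RR k) := by
  rw [← F_one, mem_F_one, cR_apply]; simp [We]

lemma F_le_pow (n : ℕ) : F k n ≤ IsLocalRing.maximalIdeal (RR k) ^ n := by
  rcases n with _ | n
  · rw [pow_zero, Ideal.one_eq_top]; exact le_top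
  rintro ⟨⟨f, g⟩, hfg⟩ ⟨hf, hg⟩
  change f ∈ J2 k (n + 1) at hf
  change g ∈ J1 k (n + 1) at hg
  -- the element `(f, 0)`
  have hcf : cc k f = 0 := (mem_J2_one k).mp ((VF_J2 k).mono (by omega) hf)
  have hcg : constantCoeff g = 0 := (mem_J1_one k).mp ((VF_J1 k).mono (by omega) hg)
  have h1 : (f, (0 : k⟦X⟧)) ∈ RR k := by rw [mem_RR, hcf, map_zero]
  have h2 : ((0 : k⟦X⟧⟦X⟧), g) ∈ RR k := by rw [mem_RR, hcg, map_zero]
  have h3 : (⟨(f, g), hfg⟩ : RR k) = ⟨_, h1⟩ + ⟨_, h2⟩ := by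
    apply Subtype.ext
    change (f, g) = (f + 0, 0 + g)
    rw [add_zero, zero_add]
  rw [h3]
  apply add_mem
  · -- `f = ∑ C (f_j) y ^ j + y ^ (n+1) G`
    choose q hq using hf
    have h4 : (X : k⟦X⟧⟦X⟧) ^ (n + 1) ∣ f - ∑ j ∈ Finset.range (n + 1), C (coeff j f) * X ^ j := by
      rw [X_pow_dvd_iff]
      intro m hm
      rw [map_sub, map_sum, Finset.sum_eq_single m]
      · rw [coeff_C_mul, coeff_X_pow_self, mul_one, sub_self]
      · intro j _ hj
        rw [coeff_C_mul, coeff_X_pow, if_neg (fun h => hj h.symm), mul_zero]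
      · intro h
        exact absurd (Finset.mem_range.mpr hm) h
    obtain ⟨G, hG⟩ := h4
    have hmemG : (G, C (cc k G)) ∈ RR k := by rw [mem_RR]; simp
    have hmemq : ∀ j, (C (q j), C (constantCoeff (q j))) ∈ RR k := by
      intro j; rw [mem_RR]; simp [cc]
    have h5 : (⟨(f, 0), h1⟩ : RR k) = ∑ j ∈ Finset.range (n + 1),
        (⟨_, hmemq j⟩ : RR k) * (Ze k ^ (n + 1 - j) * Ye k ^ j) +
        (⟨_, hmemG⟩ : RR k) * Ye k ^ (n + 1) := by
      apply Subtype.ext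
      refine Prod.ext ?_ ?_
      · change f = ((∑ j ∈ Finset.range (n + 1),
          (⟨_, hmemq j⟩ : RR k) * (Ze k ^ (n + 1 - j) * Ye k ^ j) +
          (⟨_, hmemG⟩ : RR k) * Ye k ^ (n + 1) : RR k) : k⟦X⟧⟦X⟧ × k⟦X⟧).1
        push_cast
        simp only [Ze, Ye, Prod.fst_add, Prod.fst_sum, Prod.fst_mul, Prod.pow_fst]
        rw [sub_eq_iff_eq_add'.mp hG]
        congr 1
        · apply Finset.sum_congr rfl
          intro j _
          rw [hq j]
          simp only [map_mul, map_pow]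
          ring
        · ring
      · change 0 = ((∑ j ∈ Finset.range (n + 1),
          (⟨_, hmemq j⟩ : RR k) * (Ze k ^ (n + 1 - j) * Ye k ^ j) +
          (⟨_, hmemG⟩ : RR k) * Ye k ^ (n + 1) : RR k) : k⟦X⟧⟦X⟧ × k⟦X⟧).2
        push_cast
        simp only [Ze, Ye, Prod.snd_add, Prod.snd_sum, Prod.snd_mul, Prod.pow_snd]
        rw [zero_pow (Nat.succ_ne_zero n), mul_zero, add_zero, Finset.sum_eq_zero]
        intro j hj
        rw [Finset.mem_range] at hj
        rw [zero_pow (show n + 1 - j ≠ 0 by omega), zero_mul, mul_zero]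
    rw [h5]
    apply add_mem
    · apply sum_mem
      intro j hj
      rw [Finset.mem_range] at hj
      apply Ideal.mul_mem_left
      have h6 : IsLocalRing.maximalIdeal (RR k) ^ (n + 1) =
          IsLocalRing.maximalIdeal (RR k) ^ (n + 1 - j) * IsLocalRing.maximalIdeal (RR k) ^ j := by
        rw [← pow_add]; congr 1; omega
      rw [h6]
      exact Ideal.mul_mem_mul (Ideal.pow_mem_pow (Ze_mem k) _) (Ideal.pow_mem_pow (Ye_mem k) _)
    · exact Ideal.mul_mem_left _ _ (Ideal.pow_mem_pow (Ye_mem k) _)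
  · rw [mem_J1] at hg
    obtain ⟨G, rfl⟩ := hg
    have hmemG : (C (C (constantCoeff G)), G) ∈ RR k := by rw [mem_RR]; simp [cc]
    have h5 : (⟨(0, X ^ (n + 1) * G), h2⟩ : RR k) = (⟨_, hmemG⟩ : RR k) * We k ^ (n + 1) := by
      apply Subtype.ext
      refine Prod.ext ?_ ?_
      · change (0 : k⟦X⟧⟦X⟧) = C (C (constantCoeff G)) * 0 ^ (n + 1)
        rw [zero_pow (Nat.succ_ne_zero n), mul_zero]
      · change X ^ (n + 1) * G = G * X ^ (n + 1)
        ring
    rw [h5]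
    exact Ideal.mul_mem_left _ _ (Ideal.pow_mem_pow (We_mem k) _)

lemma pow_eq_F (n : ℕ) : IsLocalRing.maximalIdeal (RR k) ^ n = F k n :=
  le_antisymm (pow_le_F k n) (F_le_pow k n)

end Pool.Agent.V1146.NH
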